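import Pool.Agent.helper10.OM.Spec

/-! # Row om:CUT (MP_bf63dc_nt): the cut norm -/

set_option autoImplicit false

namespace Pool.Agent.OM

open Finset Real Pool.Agent.AT Pool.Agent.helper85.FC

theorem CUT_mem {R Y : ℕ} {x : ℤ} : x ∈ XX R Y ↔ -(R : ℤ) ≤ x ∧ x < Y + R := by
  unfold XX
  rw [Finset.mem_Ico]

/-- sums over the interval and over `range Y` -/
theorem CUT_sum {R Y : ℕ} (g : ℤ → ℝ) (hg : ∀ x, ¬ (0 ≤ x ∧ x < (Y : ℤ)) → g x = 0) :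
    ∑ x ∈ XX R Y, g x = ∑ x ∈ range Y, g (x : ℤ) := by
  have e1 : ∑ x ∈ range Y, g (x : ℤ) = ∑ x ∈ (range Y).image (fun x : ℕ => (x : ℤ)), g x := by
    rw [Finset.sum_image]
    intro x _ y _ hxy
    exact Int.ofNat_inj.mp hxy
  rw [e1]
  symm
  apply Finset.sum_subset
  · intro x hx
    rw [Finset.mem_image] at hx
    obtain ⟨y, hy, rfl⟩ := hx
    rw [Finset.mem_range] at hy
    rw [CUT_mem]
    constructor
    · have h1 : (0 : ℤ) ≤ (y : ℤ) := Int.natCast_nonneg y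
      have h2 : (0 : ℤ) ≤ (R : ℤ) := Int.natCast_nonneg R
      linarith
    · have h1 : (y : ℤ) < Y := by exact_mod_cast hy
      have h2 : (0 : ℤ) ≤ (R : ℤ) := Int.natCast_nonneg R
      linarith
  · intro x _ hx
    apply hg
    rintro ⟨h1, h2⟩
    apply hx
    rw [Finset.mem_image]
    refine ⟨x.toNat, ?_, Int.toNat_of_nonneg h1⟩
    rw [Finset.mem_range]
    have := Int.toNat_of_nonneg h1
    omega

/-- reindexing of the pairs of levels -/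
theorem CUT_pairs (L : ℕ) (G : ℕ → ℕ → ℝ) :
    ∑ m ∈ Ico 1 L, ∑ i ∈ Ico m L, G i (i - m) = ∑ i ∈ range L, ∑ j ∈ range i, G i j := by
  rw [Finset.sum_comm' (t' := range L) (s' := fun i => Ico 1 (i + 1)) (h := by
    intro m i
    simp only [Finset.mem_Ico, Finset.mem_range]
    omega)]
  apply Finset.sum_congr rfl
  intro i _
  apply Finset.sum_nbij' (fun m => i - m) (fun j => i - j)
  · intro m hm
    simp only [Finset.mem_Ico, Finset.mem_range] at hm ⊢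
    omega
  · intro j hj
    simp only [Finset.mem_Ico, Finset.mem_range] at hj ⊢
    omega
  · intro m hm
    simp only [Finset.mem_Ico] at hm
    omega
  · intro j hj
    simp only [Finset.mem_range] at hj
    omega
  · intro m _
    rfl

/-- extension by zero -/
noncomputable def CUT_ext (Y : ℕ) (φ : ℕ × ℕ → ℝ) (i : ℕ) (x : ℤ) : ℝ :=
  if 0 ≤ x ∧ x < (Y : ℤ) then φ (i, x.toNat) else 0

theorem CUT_ext_le (Y : ℕ) (φ : ℕ × ℕ → ℝ) (hφ : ∀ p, |φ p| ≤ 1) (i : ℕ) (x : ℤ) : |CUT_ext Y φ i x| ≤ 1 := by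
  unfold CUT_ext
  split_ifs
  · exact hφ _
  · rw [abs_zero]; norm_num

theorem CUT_ext_zero (Y : ℕ) (φ : ℕ × ℕ → ℝ) (i : ℕ) (x : ℤ) (h : ¬ (0 ≤ x ∧ x < (Y : ℤ))) : CUT_ext Y φ i x = 0 := by
  unfold CUT_ext
  rw [if_neg h]

theorem CUT_ext_nat (Y : ℕ) (φ : ℕ × ℕ → ℝ) (i x : ℕ) (h : x < Y) : CUT_ext Y φ i (x : ℤ) = φ (i, x) := by
  unfold CUT_ext
  rw [if_pos ⟨Int.natCast_nonneg x, by exact_mod_cast h⟩, Int.toNat_natCast]

theorem CUT_ext_sp (Y : ℕ) (φ : ℕ × ℕ → ℝ) : Sp 0 Y (CUT_ext Y φ) := by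
  intro i x hx
  apply CUT_ext_zero
  rintro ⟨h1, h2⟩
  apply hx
  rw [CUT_mem]
  push_cast
  constructor <;> linarith

/-- the sum over the pairs with `p'.1 < p.1` -/
theorem CUT_conv (a b L R Y : ℕ) (D : ℕ → ℤ → ℝ) (φ ψ : ℕ × ℕ → ℝ) :
    ∑ p ∈ VV L Y, ∑ p' ∈ VV L Y, (if p'.1 < p.1 then D (p.1 - p'.1) ((b : ℤ) ^ (p.1 - p'.1) * p.2 -
      (a : ℤ) ^ (p.1 - p'.1) * p'.2) else 0) * φ p * ψ p' =
    ∑ m ∈ Ico 1 L, ∑ x ∈ XX R Y, ∑ y ∈ XX R Y, D m ((b : ℤ) ^ m * x - (a : ℤ) ^ m * y) *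
      gm L (CUT_ext Y φ) (CUT_ext Y ψ) m x y := by
  have e1 : ∀ m ∈ Ico 1 L, ∑ x ∈ XX R Y, ∑ y ∈ XX R Y, D m ((b : ℤ) ^ m * x - (a : ℤ) ^ m * y) *
      gm L (CUT_ext Y φ) (CUT_ext Y ψ) m x y = ∑ i ∈ Ico m L, ∑ x ∈ range Y, ∑ y ∈ range Y,
      D (i - (i - m)) ((b : ℤ) ^ (i - (i - m)) * x - (a : ℤ) ^ (i - (i - m)) * y) * φ (i, x) * ψ (i - m, y) := by
    intro m _
    have f1 : ∑ x ∈ XX R Y, ∑ y ∈ XX R Y, D m ((b : ℤ) ^ m * x - (a : ℤ) ^ m * y) *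
        gm L (CUT_ext Y φ) (CUT_ext Y ψ) m x y = ∑ x ∈ range Y, ∑ y ∈ range Y,
        D m ((b : ℤ) ^ m * x - (a : ℤ) ^ m * y) * gm L (CUT_ext Y φ) (CUT_ext Y ψ) m x y := by
      rw [CUT_sum]
      · apply Finset.sum_congr rfl
        intro x _
        rw [CUT_sum]
        intro y hy
        unfold gm
        rw [Finset.sum_eq_zero, mul_zero]
        intro i _
        rw [CUT_ext_zero Y ψ (i - m) y hy, mul_zero]
      · intro x hx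
        apply Finset.sum_eq_zero
        intro y _
        unfold gm
        rw [Finset.sum_eq_zero, mul_zero]
        intro i _
        rw [CUT_ext_zero Y φ i x hx, zero_mul]
    rw [f1]
    have f2 : ∀ x ∈ range Y, ∑ y ∈ range Y, D m ((b : ℤ) ^ m * x - (a : ℤ) ^ m * y) *
        gm L (CUT_ext Y φ) (CUT_ext Y ψ) m x y = ∑ i ∈ Ico m L, ∑ y ∈ range Y,
        D (i - (i - m)) ((b : ℤ) ^ (i - (i - m)) * x - (a : ℤ) ^ (i - (i - m)) * y) * φ (i, x) * ψ (i - m, y) := by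
      intro x hx
      rw [Finset.sum_comm]
      apply Finset.sum_congr rfl
      intro y hy
      unfold gm
      rw [Finset.mul_sum]
      apply Finset.sum_congr rfl
      intro i hi
      rw [Finset.mem_range] at hx hy
      rw [Finset.mem_Ico] at hi
      rw [CUT_ext_nat Y φ i x hx, CUT_ext_nat Y ψ (i - m) y hy, Nat.sub_sub_self hi.1, mul_assoc]
    rw [Finset.sum_congr rfl f2, Finset.sum_comm]
  rw [Finset.sum_congr rfl e1]
  rw [CUT_pairs L (fun i j => ∑ x ∈ range Y, ∑ y ∈ range Y,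
      D (i - j) ((b : ℤ) ^ (i - j) * x - (a : ℤ) ^ (i - j) * y) * φ (i, x) * ψ (j, y))]
  unfold VV
  rw [Finset.sum_product]
  apply Finset.sum_congr rfl
  intro i hi
  rw [Finset.mem_range] at hi
  have f3 : ∀ x ∈ range Y, ∑ p' ∈ range L ×ˢ range Y, (if p'.1 < i then D (i - p'.1) ((b : ℤ) ^ (i - p'.1) * x -
      (a : ℤ) ^ (i - p'.1) * p'.2) else 0) * φ (i, x) * ψ p' = ∑ j ∈ range i, ∑ y ∈ range Y,
      D (i - j) ((b : ℤ) ^ (i - j) * x - (a : ℤ) ^ (i - j) * y) * φ (i, x) * ψ (j, y) := by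
    intro x _
    rw [Finset.sum_product]
    have f4 : range i = (range L).filter (fun j => j < i) := by
      ext j
      rw [Finset.mem_filter, Finset.mem_range, Finset.mem_range]
      omega
    rw [f4, Finset.sum_filter]
    apply Finset.sum_congr rfl
    intro j _
    split_ifs with h
    · rfl
    · apply Finset.sum_eq_zero
      intro y _
      rw [zero_mul, zero_mul]
  rw [Finset.sum_congr rfl f3, Finset.sum_comm]

theorem CUT_half (h1 : UBD_stmt) (h2 : SMD_stmt) (a b L T : ℕ) (ha : 1 ≤ a) (hb : 1 ≤ b) (hL : 1 ≤ L) (hT : 1 ≤ T) :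
    ∃ Y₀ : ℕ, ∀ Y : ℕ, Y₀ ≤ Y → ∀ B : ℕ → ℤ → ℝ, (∀ m v, 0 ≤ B m v ∧ B m v ≤ 1) →
    ∀ φ ψ : ℕ × ℕ → ℝ, (∀ p, |φ p| ≤ 1) → (∀ p, |ψ p| ≤ 1) →
    |∑ p ∈ VV L Y, ∑ p' ∈ VV L Y, (if p'.1 < p.1 then (B (p.1 - p'.1) ((b : ℤ) ^ (p.1 - p'.1) * p.2 -
      (a : ℤ) ^ (p.1 - p'.1) * p'.2) - PP (b ^ L * MM1 a b L) T B (p.1 - p'.1) ((b : ℤ) ^ (p.1 - p'.1) * p.2 -
      (a : ℤ) ^ (p.1 - p'.1) * p'.2)) else 0) * φ p * ψ p'| ≤ 7 * (L * √L) * (Y : ℝ) ^ 2 := by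
  have hT' : 1 ≤ L * b ^ L * T := Nat.mul_pos (Nat.mul_pos hL (Nat.pow_pos hb)) hT
  obtain ⟨R, Y₀, hR, hY⟩ := h1 a b L (L * b ^ L * T) ha hb hL hT'
  refine ⟨Y₀, fun Y hY0 B hB φ ψ hφ hψ => ?_⟩
  have hT0 : (0 : ℝ) < T := by exact_mod_cast hT
  have hPP : ∀ m v, 0 ≤ PP (b ^ L * MM1 a b L) T B m v ∧ PP (b ^ L * MM1 a b L) T B m v ≤ 1 := by
    intro m v
    unfold PP sm
    constructor
    · exact div_nonneg (Finset.sum_nonneg fun τ _ => (hB m _).1) hT0.le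
    · rw [div_le_one hT0]
      refine (Finset.sum_le_sum fun τ _ => (hB m _).2).trans ?_
      rw [Finset.sum_const, Finset.card_range, nsmul_eq_mul, mul_one]
  rw [CUT_conv a b L R Y (fun m v => B m v - PP (b ^ L * MM1 a b L) T B m v) φ ψ]
  have e1 : ∀ m x y, gm L (CUT_ext Y φ) (CUT_ext Y ψ) m x y =
      gm L (fun i x => sm (MM1 a b L) (L * b ^ L * T) (CUT_ext Y φ i) x) (CUT_ext Y ψ) m x y +
      gm L (fun i x => CUT_ext Y φ i x - sm (MM1 a b L) (L * b ^ L * T) (CUT_ext Y φ i) x) (CUT_ext Y ψ) m x y := by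
    intro m x y
    unfold gm
    rw [← Finset.sum_add_distrib]
    apply Finset.sum_congr rfl
    intro i _
    ring
  have e2 : ∑ m ∈ Ico 1 L, ∑ x ∈ XX R Y, ∑ y ∈ XX R Y, (B m ((b : ℤ) ^ m * x - (a : ℤ) ^ m * y) -
      PP (b ^ L * MM1 a b L) T B m ((b : ℤ) ^ m * x - (a : ℤ) ^ m * y)) * gm L (CUT_ext Y φ) (CUT_ext Y ψ) m x y =
      ∑ m ∈ Ico 1 L, ∑ x ∈ XX R Y, ∑ y ∈ XX R Y, (B m ((b : ℤ) ^ m * x - (a : ℤ) ^ m * y) -
      PP (b ^ L * MM1 a b L) T B m ((b : ℤ) ^ m * x - (a : ℤ) ^ m * y)) *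
        gm L (fun i x => sm (MM1 a b L) (L * b ^ L * T) (CUT_ext Y φ i) x) (CUT_ext Y ψ) m x y +
      ∑ m ∈ Ico 1 L, ∑ x ∈ XX R Y, ∑ y ∈ XX R Y, (B m ((b : ℤ) ^ m * x - (a : ℤ) ^ m * y) -
      PP (b ^ L * MM1 a b L) T B m ((b : ℤ) ^ m * x - (a : ℤ) ^ m * y)) *
        gm L (fun i x => CUT_ext Y φ i x - sm (MM1 a b L) (L * b ^ L * T) (CUT_ext Y φ i) x) (CUT_ext Y ψ) m x y := by
    rw [← Finset.sum_add_distrib]
    apply Finset.sum_congr rfl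
    intro m _
    rw [← Finset.sum_add_distrib]
    apply Finset.sum_congr rfl
    intro x _
    rw [← Finset.sum_add_distrib]
    apply Finset.sum_congr rfl
    intro y _
    rw [e1, mul_add]
  have e3 := h2 a b L T R Y ha hb hL hT hR B (CUT_ext Y φ) (CUT_ext Y ψ) hB (CUT_ext_le Y φ hφ) (CUT_ext_le Y ψ hψ)
    (CUT_ext_sp Y φ) (CUT_ext_sp Y ψ)
  have e4 := hY Y hY0 (fun m v => B m v - PP (b ^ L * MM1 a b L) T B m v) (CUT_ext Y φ) (CUT_ext Y ψ) (by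
    intro m v
    have g1 := hB m v
    have g2 := hPP m v
    show |B m v - PP (b ^ L * MM1 a b L) T B m v| ≤ 1
    rw [abs_le]
    constructor <;> linarith [g1.1, g1.2, g2.1, g2.2]) (CUT_ext_le Y φ hφ) (CUT_ext_le Y ψ hψ)
    (CUT_ext_sp Y φ) (CUT_ext_sp Y ψ)
  have hs : (1 : ℝ) ≤ √(L : ℝ) := by
    rw [Real.one_le_sqrt]
    exact_mod_cast hL
  have hL0 : (0 : ℝ) ≤ L := by positivity
  have e5 : (L : ℝ) * (Y : ℝ) ^ 2 ≤ L * √(L : ℝ) * (Y : ℝ) ^ 2 := by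
    apply mul_le_mul_of_nonneg_right _ (by positivity)
    nlinarith
  show |∑ m ∈ Ico 1 L, ∑ x ∈ XX R Y, ∑ y ∈ XX R Y, (B m ((b : ℤ) ^ m * x - (a : ℤ) ^ m * y) -
      PP (b ^ L * MM1 a b L) T B m ((b : ℤ) ^ m * x - (a : ℤ) ^ m * y)) * gm L (CUT_ext Y φ) (CUT_ext Y ψ) m x y| ≤ _
  rw [e2]
  refine (abs_add_le _ _).trans ?_
  linarith

theorem CUT (h1 : UBD_stmt) (h2 : SMD_stmt) : CUT_stmt := by
  intro a b L T ha hb hL hT
  obtain ⟨Y₀, hY⟩ := CUT_half h1 h2 a b L T ha hb hL hT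
  refine ⟨Y₀, fun Y hY0 B hB φ ψ hφ hψ => ?_⟩
  have g1 := hY Y hY0 B hB φ ψ hφ hψ
  have g2 := hY Y hY0 B hB ψ φ hψ hφ
  have e1 : ∑ p ∈ VV L Y, ∑ p' ∈ VV L Y, (kr a b B p p' - kr a b (PP (b ^ L * MM1 a b L) T B) p p') * φ p * ψ p' =
      ∑ p ∈ VV L Y, ∑ p' ∈ VV L Y, (if p'.1 < p.1 then (B (p.1 - p'.1) ((b : ℤ) ^ (p.1 - p'.1) * p.2 -
      (a : ℤ) ^ (p.1 - p'.1) * p'.2) - PP (b ^ L * MM1 a b L) T B (p.1 - p'.1) ((b : ℤ) ^ (p.1 - p'.1) * p.2 -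
      (a : ℤ) ^ (p.1 - p'.1) * p'.2)) else 0) * φ p * ψ p' +
      ∑ p ∈ VV L Y, ∑ p' ∈ VV L Y, (if p'.1 < p.1 then (B (p.1 - p'.1) ((b : ℤ) ^ (p.1 - p'.1) * p.2 -
      (a : ℤ) ^ (p.1 - p'.1) * p'.2) - PP (b ^ L * MM1 a b L) T B (p.1 - p'.1) ((b : ℤ) ^ (p.1 - p'.1) * p.2 -
      (a : ℤ) ^ (p.1 - p'.1) * p'.2)) else 0) * ψ p * φ p' := by
    rw [Finset.sum_comm (s := VV L Y) (t := VV L Y) (f := fun p p' => (if p'.1 < p.1 then (B (p.1 - p'.1) ((b : ℤ) ^ (p.1 - p'.1) * p.2 -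
      (a : ℤ) ^ (p.1 - p'.1) * p'.2) - PP (b ^ L * MM1 a b L) T B (p.1 - p'.1) ((b : ℤ) ^ (p.1 - p'.1) * p.2 -
      (a : ℤ) ^ (p.1 - p'.1) * p'.2)) else 0) * ψ p * φ p'), ← Finset.sum_add_distrib]
    apply Finset.sum_congr rfl
    intro p _
    rw [← Finset.sum_add_distrib]
    apply Finset.sum_congr rfl
    intro p' _
    unfold kr
    rcases lt_trichotomy p.1 p'.1 with h | h | h
    · rw [if_neg (by omega), if_pos h, if_neg (by omega), if_pos h, if_neg (by omega), if_pos h]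
      ring
    · rw [if_neg (by omega), if_neg (by omega), if_neg (by omega), if_neg (by omega), if_neg (by omega), if_neg (by omega)]
      ring
    · rw [if_pos h, if_pos h, if_pos h, if_neg (by omega)]
      ring
  rw [e1]
  refine (abs_add_le _ _).trans ?_
  linarith

end Pool.Agent.OM
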