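import Pool.Agent.helper10.OM.Spec

/-! # Row om:SHF (MP_bf63dc_nt): shifting a sum -/

set_option autoImplicit false

namespace Pool.Agent.OM

open Finset Real Pool.Agent.AT Pool.Agent.helper85.FC

theorem SHF_mem {R Y : ℕ} {x : ℤ} : x ∈ XX R Y ↔ -(R : ℤ) ≤ x ∧ x < Y + R := by
  unfold XX
  rw [Finset.mem_Ico]

theorem SHF : SHF_stmt := by
  intro E _ R₀ R Y A hA h hh
  have hA' := abs_le.mp (show |A| ≤ (R : ℤ) - R₀ by linarith)
  have e1 : ∑ x ∈ XX R Y, h (x + A) = ∑ x ∈ (XX R Y).filter (fun x => x + A ∈ XX R₀ Y), h (x + A) := by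
    rw [Finset.sum_filter]
    apply Finset.sum_congr rfl
    intro x _
    split_ifs with h1
    · rfl
    · exact hh _ h1
  have e2 : ∑ x ∈ XX R Y, h x = ∑ x ∈ XX R₀ Y, h x := by
    symm
    apply Finset.sum_subset
    · intro x hx
      rw [SHF_mem] at hx ⊢
      constructor <;> have := abs_nonneg A <;> linarith [hx.1, hx.2]
    · intro x _ hx
      exact hh x hx
  rw [e1, e2]
  apply Finset.sum_bij (fun x _ => x + A)
  · intro x hx
    exact (Finset.mem_filter.mp hx).2
  · intro x _ y _ hxy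
    exact add_right_cancel hxy
  · intro y hy
    refine ⟨y - A, ?_, by ring⟩
    rw [Finset.mem_filter]
    refine ⟨?_, by rw [sub_add_cancel]; exact hy⟩
    rw [SHF_mem] at hy ⊢
    constructor <;> linarith [hy.1, hy.2, hA'.1, hA'.2]
  · intro x _
    rfl

end Pool.Agent.OM
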