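import Pool.Agent.helper10.OM.Spec

/-! # Row om:SML (MP_bf63dc_nt): averages are nearly constant -/

set_option autoImplicit false

namespace Pool.Agent.OM

open Finset Real Pool.Agent.AT Pool.Agent.helper85.FC

theorem SML_abs (Y : ℕ) (f : ℤ → ℝ) (hf : ∀ x, |f x| ≤ 1) (hs : ∀ x, x ∉ XX 0 Y → f x = 0) (A : ℤ) (X : Finset ℤ) :
    ∑ x ∈ X, |f (x + A)| ≤ Y := by
  have e1 : ∑ x ∈ X, |f (x + A)| = ∑ x ∈ X.filter (fun x => x + A ∈ XX 0 Y), |f (x + A)| := by
    rw [Finset.sum_filter]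
    apply Finset.sum_congr rfl
    intro x _
    split_ifs with h1
    · rfl
    · rw [hs _ h1, abs_zero]
  rw [e1]
  have h1 : ∑ x ∈ X.filter (fun x => x + A ∈ XX 0 Y), |f (x + A)| ≤ ∑ _x ∈ X.filter (fun x => x + A ∈ XX 0 Y), (1 : ℝ) :=
    Finset.sum_le_sum fun x _ => hf _
  rw [Finset.sum_const, nsmul_eq_mul, mul_one] at h1
  refine h1.trans ?_
  have h2 : (X.filter (fun x => x + A ∈ XX 0 Y)).card ≤ (XX 0 Y).card := by
    apply Finset.card_le_card_of_injOn (fun x => x + A)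
    · intro x hx
      exact (Finset.mem_filter.mp hx).2
    · intro x _ y _ hxy
      exact add_right_cancel hxy
  have h3 : (XX 0 Y).card = Y := by
    unfold XX
    rw [Int.card_Ico]
    simp
  rw [h3] at h2
  exact_mod_cast h2

theorem SML : SML_stmt := by
  intro M T s R Y hT hsT f hf hs
  obtain ⟨k, rfl⟩ := Nat.exists_eq_add_of_le hsT
  have hT0 : (0 : ℝ) < ((s + k : ℕ) : ℝ) := by exact_mod_cast hT
  have e1 : ∀ x : ℤ, sm M (s + k) f x - sm M (s + k) f (x - M * s) =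
      (∑ ρ ∈ range s, (f (x + (M * ((k + ρ : ℕ) : ℤ))) - f (x + (M * (ρ : ℤ) - M * s)))) / ((s + k : ℕ) : ℝ) := by
    intro x
    unfold sm
    rw [← sub_div]
    congr 1
    have h1 : ∑ τ ∈ range (s + k), f (x + M * (τ : ℤ)) = ∑ τ ∈ range k, f (x + M * (τ : ℤ)) +
        ∑ ρ ∈ range s, f (x + M * ((k + ρ : ℕ) : ℤ)) := by
      rw [Nat.add_comm s k, Finset.sum_range_add]
    have h2 : ∑ τ ∈ range (s + k), f (x - M * s + M * (τ : ℤ)) = ∑ ρ ∈ range s, f (x + (M * (ρ : ℤ) - M * s)) +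
        ∑ τ ∈ range k, f (x + M * (τ : ℤ)) := by
      rw [Finset.sum_range_add]
      congr 1
      · apply Finset.sum_congr rfl
        intro ρ _
        congr 1
        ring
      · apply Finset.sum_congr rfl
        intro τ _
        congr 1
        push_cast
        ring
    rw [h1, h2, Finset.sum_sub_distrib]
    ring
  have h3 : ∀ x ∈ XX R Y, |sm M (s + k) f x - sm M (s + k) f (x - M * s)| ≤
      (∑ ρ ∈ range s, (|f (x + (M * ((k + ρ : ℕ) : ℤ)))| + |f (x + (M * (ρ : ℤ) - M * s))|)) / ((s + k : ℕ) : ℝ) := by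
    intro x _
    rw [e1, abs_div, abs_of_pos hT0]
    apply div_le_div_of_nonneg_right _ hT0.le
    refine (Finset.abs_sum_le_sum_abs _ _).trans ?_
    apply Finset.sum_le_sum
    intro ρ _
    exact abs_sub _ _
  refine (Finset.sum_le_sum h3).trans ?_
  rw [← Finset.sum_div]
  apply div_le_div_of_nonneg_right _ hT0.le
  rw [Finset.sum_comm]
  have h4 : ∀ ρ ∈ range s, ∑ x ∈ XX R Y, (|f (x + (M * ((k + ρ : ℕ) : ℤ)))| + |f (x + (M * (ρ : ℤ) - M * s))|) ≤ 2 * (Y : ℝ) := by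
    intro ρ _
    rw [Finset.sum_add_distrib]
    have h5 := SML_abs Y f hf hs (M * ((k + ρ : ℕ) : ℤ)) (XX R Y)
    have h6 := SML_abs Y f hf hs (M * (ρ : ℤ) - M * s) (XX R Y)
    linarith
  refine (Finset.sum_le_sum h4).trans ?_
  rw [Finset.sum_const, Finset.card_range, nsmul_eq_mul]
  apply le_of_eq
  ring

end Pool.Agent.OM
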