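import Pool.Agent.helper10.OM.Spec

/-! # Row om:SMD (MP_bf63dc_nt): the smooth part -/

set_option autoImplicit false

namespace Pool.Agent.OM

open Finset Real Pool.Agent.AT Pool.Agent.helper85.FC

theorem SMD_mem {R Y : ℕ} {x : ℤ} : x ∈ XX R Y ↔ -(R : ℤ) ≤ x ∧ x < Y + R := by
  unfold XX
  rw [Finset.mem_Ico]

/-- support of the averages -/
theorem SMD_supp (M T Y : ℕ) (f : ℤ → ℝ) (hs : ∀ x, x ∉ XX 0 Y → f x = 0) (x : ℤ)
    (hx : x < -((M : ℤ) * T) ∨ (Y : ℤ) ≤ x) : sm M T f x = 0 := by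
  unfold sm
  rw [Finset.sum_eq_zero, zero_div]
  intro τ hτ
  rw [Finset.mem_range] at hτ
  apply hs
  rw [SMD_mem]
  have h1 : (M : ℤ) * τ ≤ M * T := mul_le_mul_of_nonneg_left (by exact_mod_cast hτ.le) (by positivity)
  have h2 : (0 : ℤ) ≤ (M : ℤ) * τ := by positivity
  rintro ⟨h3, h4⟩
  push_cast at h3 h4
  rcases hx with h5 | h5 <;> linarith

/-- one shift -/
theorem SMD_one (h1 : SHF_stmt) (h2 : SML_stmt) (M T s R Y : ℕ) (hT : 1 ≤ T) (hs : s ≤ T) (hR : 2 * (M * T) ≤ R)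
    (f : ℤ → ℝ) (hf : ∀ x, |f x| ≤ 1) (hfs : ∀ x, x ∉ XX 0 Y → f x = 0) (g : ℤ → ℝ) (hg : ∀ v, |g v| ≤ 1) (p c : ℤ) :
    |∑ x ∈ XX R Y, (g (p * x - c) - g (p * x - c + p * (M * s))) * sm M T f x| ≤ 2 * s * Y / T := by
  have hA : (0 : ℤ) ≤ (M : ℤ) * s := by positivity
  have hA2 : (M : ℤ) * s ≤ M * T := mul_le_mul_of_nonneg_left (by exact_mod_cast hs) (by positivity)
  have hR' : 2 * ((M : ℤ) * T) ≤ R := by exact_mod_cast hR
  have e1 := h1 (M * T) R Y ((M : ℤ) * s) (by rw [abs_of_nonneg hA]; push_cast; linarith)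
    (fun x => g (p * x - c) * sm M T f (x - M * s)) (by
      intro x hx
      have : sm M T f (x - M * s) = 0 := by
        apply SMD_supp M T Y f hfs
        by_contra h3
        push Not at h3
        apply hx
        rw [SMD_mem]
        push_cast
        constructor <;> linarith [h3.1, h3.2]
      show g (p * x - c) * sm M T f (x - M * s) = 0
      rw [this, mul_zero])
  have e2 : ∑ x ∈ XX R Y, (g (p * x - c) - g (p * x - c + p * (M * s))) * sm M T f x =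
      ∑ x ∈ XX R Y, g (p * x - c) * (sm M T f x - sm M T f (x - M * s)) := by
    have e3 : ∑ x ∈ XX R Y, g (p * x - c + p * (M * s)) * sm M T f x =
        ∑ x ∈ XX R Y, g (p * x - c) * sm M T f (x - M * s) := by
      rw [← e1]
      apply Finset.sum_congr rfl
      intro x _
      show g (p * x - c + p * (M * s)) * sm M T f x = g (p * (x + M * s) - c) * sm M T f (x + M * s - M * s)
      rw [add_sub_cancel_right]
      congr 2
      ring
    have e4 : ∀ x ∈ XX R Y, (g (p * x - c) - g (p * x - c + p * (M * s))) * sm M T f x =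
        g (p * x - c) * sm M T f x - g (p * x - c + p * (M * s)) * sm M T f x := fun x _ => by ring
    rw [Finset.sum_congr rfl e4, Finset.sum_sub_distrib, e3, ← Finset.sum_sub_distrib]
    apply Finset.sum_congr rfl
    intro x _
    ring
  rw [e2]
  refine (Finset.abs_sum_le_sum_abs _ _).trans ?_
  refine (Finset.sum_le_sum fun x _ => ?_).trans (h2 M T s R Y hT hs f hf hfs)
  rw [abs_mul]
  calc |g (p * x - c)| * |sm M T f x - sm M T f (x - M * s)| ≤ 1 * |sm M T f x - sm M T f (x - M * s)| :=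
        mul_le_mul_of_nonneg_right (hg _) (abs_nonneg _)
    _ = |sm M T f x - sm M T f (x - M * s)| := one_mul _

/-- the average over `t` -/
theorem SMD_avg (h1 : SHF_stmt) (h2 : SML_stmt) (a b L T R Y : ℕ) (hb : 1 ≤ b) (hL : 1 ≤ L) (hT : 1 ≤ T)
    (hR : 3 * (MM1 a b L * (L * b ^ L * T)) ≤ R) (B : ℕ → ℤ → ℝ) (hB : ∀ m v, 0 ≤ B m v ∧ B m v ≤ 1)
    (f : ℤ → ℝ) (hf : ∀ x, |f x| ≤ 1) (hfs : ∀ x, x ∉ XX 0 Y → f x = 0) (m : ℕ) (hm : m ≤ L) (y : ℤ) :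
    |∑ x ∈ XX R Y, (B m ((b : ℤ) ^ m * x - (a : ℤ) ^ m * y) -
      PP (b ^ L * MM1 a b L) T B m ((b : ℤ) ^ m * x - (a : ℤ) ^ m * y)) * sm (MM1 a b L) (L * b ^ L * T) f x| ≤
      2 * Y / L := by
  have hT0 : (0 : ℝ) < T := by exact_mod_cast hT
  have hL0 : (0 : ℝ) < L := by exact_mod_cast hL
  have hb0 : (0 : ℝ) < (b : ℝ) ^ L := by
    have : (0 : ℝ) < b := by exact_mod_cast hb
    positivity
  have hT' : 1 ≤ L * b ^ L * T := Nat.mul_pos (Nat.mul_pos hL (Nat.pow_pos hb)) hT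
  have e1 : ∀ x : ℤ, B m ((b : ℤ) ^ m * x - (a : ℤ) ^ m * y) -
      PP (b ^ L * MM1 a b L) T B m ((b : ℤ) ^ m * x - (a : ℤ) ^ m * y) =
      (∑ t ∈ range T, (B m ((b : ℤ) ^ m * x - (a : ℤ) ^ m * y) -
        B m ((b : ℤ) ^ m * x - (a : ℤ) ^ m * y + (b : ℤ) ^ m * ((MM1 a b L : ℤ) * ((b ^ (L - m) * t : ℕ) : ℤ))))) / T := by
    intro x
    unfold PP sm
    rw [Finset.sum_sub_distrib, Finset.sum_const, Finset.card_range, nsmul_eq_mul, sub_div, mul_div_cancel_left₀ _ hT0.ne']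
    congr 2
    apply Finset.sum_congr rfl
    intro t _
    congr 2
    have : (b : ℤ) ^ L = (b : ℤ) ^ m * (b : ℤ) ^ (L - m) := by rw [← pow_add, Nat.add_sub_cancel' hm]
    push_cast
    rw [this]
    ring
  have e2 : ∑ x ∈ XX R Y, (B m ((b : ℤ) ^ m * x - (a : ℤ) ^ m * y) -
      PP (b ^ L * MM1 a b L) T B m ((b : ℤ) ^ m * x - (a : ℤ) ^ m * y)) * sm (MM1 a b L) (L * b ^ L * T) f x =
      (∑ t ∈ range T, ∑ x ∈ XX R Y, (B m ((b : ℤ) ^ m * x - (a : ℤ) ^ m * y) -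
        B m ((b : ℤ) ^ m * x - (a : ℤ) ^ m * y + (b : ℤ) ^ m * ((MM1 a b L : ℤ) * ((b ^ (L - m) * t : ℕ) : ℤ)))) *
        sm (MM1 a b L) (L * b ^ L * T) f x) / T := by
    rw [Finset.sum_comm, Finset.sum_div]
    apply Finset.sum_congr rfl
    intro x _
    rw [e1, ← Finset.sum_mul]
    ring
  rw [e2, abs_div, abs_of_pos hT0, div_le_iff₀ hT0]
  refine (Finset.abs_sum_le_sum_abs _ _).trans ?_
  have h3 : ∀ t ∈ range T, |∑ x ∈ XX R Y, (B m ((b : ℤ) ^ m * x - (a : ℤ) ^ m * y) -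
        B m ((b : ℤ) ^ m * x - (a : ℤ) ^ m * y + (b : ℤ) ^ m * ((MM1 a b L : ℤ) * ((b ^ (L - m) * t : ℕ) : ℤ)))) *
        sm (MM1 a b L) (L * b ^ L * T) f x| ≤ 2 * Y / L := by
    intro t ht
    rw [Finset.mem_range] at ht
    have hs : b ^ (L - m) * t ≤ b ^ L * T :=
      Nat.mul_le_mul (Nat.pow_le_pow_right hb (Nat.sub_le _ _)) ht.le
    have hs' : b ^ (L - m) * t ≤ L * b ^ L * T := by
      refine hs.trans ?_
      rw [mul_assoc]
      exact Nat.le_mul_of_pos_left _ hL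
    refine (SMD_one h1 h2 (MM1 a b L) (L * b ^ L * T) (b ^ (L - m) * t) R Y hT' hs' (by omega) f hf hfs (B m) ?_
      ((b : ℤ) ^ m) ((a : ℤ) ^ m * y)).trans ?_
    · intro v
      rw [abs_of_nonneg (hB m v).1]
      exact (hB m v).2
    · have h4 : (((b ^ (L - m) * t : ℕ) : ℝ)) ≤ (b : ℝ) ^ L * T := by exact_mod_cast hs
      have h5 : (((L * b ^ L * T : ℕ) : ℝ)) = L * (b : ℝ) ^ L * T := by push_cast; ring
      rw [h5, div_le_div_iff₀ (by positivity) hL0]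
      have h6 : (0 : ℝ) ≤ 2 * Y * L := by positivity
      calc 2 * (((b ^ (L - m) * t : ℕ) : ℝ)) * Y * L = 2 * Y * L * ((b ^ (L - m) * t : ℕ) : ℝ) := by ring
        _ ≤ 2 * Y * L * ((b : ℝ) ^ L * T) := mul_le_mul_of_nonneg_left h4 h6
        _ = 2 * Y * (L * (b : ℝ) ^ L * T) := by ring
  refine (Finset.sum_le_sum h3).trans ?_
  rw [Finset.sum_const, Finset.card_range, nsmul_eq_mul]
  apply le_of_eq
  ring

theorem SMD_count (L : ℕ) : 2 * ∑ m ∈ Ico 1 L, (L - m) ≤ L ^ 2 := by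
  induction L with
  | zero => simp
  | succ L ih =>
    rcases Nat.eq_zero_or_pos L with rfl | hL
    · simp
    · rw [Finset.sum_Ico_succ_top hL]
      have h1 : ∑ m ∈ Ico 1 L, (L + 1 - m) = ∑ m ∈ Ico 1 L, (L - m) + (L - 1) := by
        have h2 : ∀ m ∈ Ico 1 L, L + 1 - m = (L - m) + 1 := by
          intro m hm
          rw [Finset.mem_Ico] at hm
          omega
        rw [Finset.sum_congr rfl h2, Finset.sum_add_distrib, Finset.sum_const, Nat.card_Ico, smul_eq_mul, mul_one]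
      rw [h1]
      have h3 : (L + 1) ^ 2 = L ^ 2 + 2 * L + 1 := by ring
      omega

theorem SMD (h1 : SHF_stmt) (h2 : SML_stmt) : SMD_stmt := by
  intro a b L T R Y ha hb hL hT hR B φ ψ hB hφ hψ hsφ hsψ
  have hL0 : (0 : ℝ) < L := by exact_mod_cast hL
  have hψs : ∀ j : ℕ, ∑ y ∈ XX R Y, |ψ j y| ≤ Y := by
    intro j
    have e1 : ∑ y ∈ XX R Y, |ψ j y| = ∑ y ∈ (XX R Y).filter (fun y => y ∈ XX 0 Y), |ψ j y| := by
      rw [Finset.sum_filter]
      apply Finset.sum_congr rfl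
      intro y _
      split_ifs with h3
      · rfl
      · rw [hsψ j y h3, abs_zero]
    rw [e1]
    have h3 : ∑ y ∈ (XX R Y).filter (fun y => y ∈ XX 0 Y), |ψ j y| ≤ ∑ _y ∈ (XX R Y).filter (fun y => y ∈ XX 0 Y), (1 : ℝ) :=
      Finset.sum_le_sum fun y _ => hψ j y
    rw [Finset.sum_const, nsmul_eq_mul, mul_one] at h3
    refine h3.trans ?_
    have h4 : ((XX R Y).filter (fun y => y ∈ XX 0 Y)).card ≤ (XX 0 Y).card := by
      apply Finset.card_le_card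
      intro y hy
      exact (Finset.mem_filter.mp hy).2
    have h5 : (XX 0 Y).card = Y := by
      unfold XX
      rw [Int.card_Ico]
      simp
    rw [h5] at h4
    exact_mod_cast h4
  have e1 : ∀ m ∈ Ico 1 L, ∑ x ∈ XX R Y, ∑ y ∈ XX R Y, (B m ((b : ℤ) ^ m * x - (a : ℤ) ^ m * y) -
      PP (b ^ L * MM1 a b L) T B m ((b : ℤ) ^ m * x - (a : ℤ) ^ m * y)) *
      gm L (fun i x => sm (MM1 a b L) (L * b ^ L * T) (φ i) x) ψ m x y =
      ∑ i ∈ Ico m L, ∑ y ∈ XX R Y, ψ (i - m) y * ∑ x ∈ XX R Y, (B m ((b : ℤ) ^ m * x - (a : ℤ) ^ m * y) -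
      PP (b ^ L * MM1 a b L) T B m ((b : ℤ) ^ m * x - (a : ℤ) ^ m * y)) * sm (MM1 a b L) (L * b ^ L * T) (φ i) x := by
    intro m _
    have f1 : ∀ i ∈ Ico m L, ∑ y ∈ XX R Y, ψ (i - m) y * ∑ x ∈ XX R Y, (B m ((b : ℤ) ^ m * x - (a : ℤ) ^ m * y) -
        PP (b ^ L * MM1 a b L) T B m ((b : ℤ) ^ m * x - (a : ℤ) ^ m * y)) * sm (MM1 a b L) (L * b ^ L * T) (φ i) x =
        ∑ x ∈ XX R Y, ∑ y ∈ XX R Y, (B m ((b : ℤ) ^ m * x - (a : ℤ) ^ m * y) -
        PP (b ^ L * MM1 a b L) T B m ((b : ℤ) ^ m * x - (a : ℤ) ^ m * y)) *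
        (sm (MM1 a b L) (L * b ^ L * T) (φ i) x * ψ (i - m) y) := by
      intro i _
      rw [Finset.sum_comm]
      apply Finset.sum_congr rfl
      intro y _
      rw [Finset.mul_sum]
      apply Finset.sum_congr rfl
      intro x _
      ring
    rw [Finset.sum_congr rfl f1]
    symm
    rw [Finset.sum_comm]
    apply Finset.sum_congr rfl
    intro x _
    rw [Finset.sum_comm]
    apply Finset.sum_congr rfl
    intro y _
    unfold gm
    rw [Finset.mul_sum]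
  rw [Finset.sum_congr rfl e1]
  refine (Finset.abs_sum_le_sum_abs _ _).trans ?_
  have h3 : ∀ m ∈ Ico 1 L, |∑ i ∈ Ico m L, ∑ y ∈ XX R Y, ψ (i - m) y * ∑ x ∈ XX R Y, (B m ((b : ℤ) ^ m * x - (a : ℤ) ^ m * y) -
      PP (b ^ L * MM1 a b L) T B m ((b : ℤ) ^ m * x - (a : ℤ) ^ m * y)) * sm (MM1 a b L) (L * b ^ L * T) (φ i) x| ≤
      ((L - m : ℕ) : ℝ) * (Y * (2 * Y / L)) := by
    intro m hm
    rw [Finset.mem_Ico] at hm
    refine (Finset.abs_sum_le_sum_abs _ _).trans ?_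
    have h4 : ∀ i ∈ Ico m L, |∑ y ∈ XX R Y, ψ (i - m) y * ∑ x ∈ XX R Y, (B m ((b : ℤ) ^ m * x - (a : ℤ) ^ m * y) -
        PP (b ^ L * MM1 a b L) T B m ((b : ℤ) ^ m * x - (a : ℤ) ^ m * y)) * sm (MM1 a b L) (L * b ^ L * T) (φ i) x| ≤
        Y * (2 * Y / L) := by
      intro i _
      refine (Finset.abs_sum_le_sum_abs _ _).trans ?_
      calc ∑ y ∈ XX R Y, |ψ (i - m) y * ∑ x ∈ XX R Y, (B m ((b : ℤ) ^ m * x - (a : ℤ) ^ m * y) -
        PP (b ^ L * MM1 a b L) T B m ((b : ℤ) ^ m * x - (a : ℤ) ^ m * y)) * sm (MM1 a b L) (L * b ^ L * T) (φ i) x|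
          ≤ ∑ y ∈ XX R Y, |ψ (i - m) y| * (2 * Y / L) := by
            apply Finset.sum_le_sum
            intro y _
            rw [abs_mul]
            exact mul_le_mul_of_nonneg_left (SMD_avg h1 h2 a b L T R Y hb hL hT hR B hB (φ i) (hφ i) (fun x hx => hsφ i x hx) m
              hm.2.le y) (abs_nonneg _)
        _ = (∑ y ∈ XX R Y, |ψ (i - m) y|) * (2 * Y / L) := by rw [Finset.sum_mul]
        _ ≤ Y * (2 * Y / L) := mul_le_mul_of_nonneg_right (hψs _) (by positivity)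
    refine (Finset.sum_le_sum h4).trans ?_
    rw [Finset.sum_const, Nat.card_Ico, nsmul_eq_mul]
  refine (Finset.sum_le_sum h3).trans ?_
  rw [← Finset.sum_mul]
  have h5 : 2 * ∑ m ∈ Ico 1 L, ((L - m : ℕ) : ℝ) ≤ (L : ℝ) ^ 2 := by exact_mod_cast SMD_count L
  have h6 : (0 : ℝ) ≤ (Y : ℝ) ^ 2 / L := by positivity
  calc (∑ m ∈ Ico 1 L, ((L - m : ℕ) : ℝ)) * (Y * (2 * Y / L)) = (2 * ∑ m ∈ Ico 1 L, ((L - m : ℕ) : ℝ)) * ((Y : ℝ) ^ 2 / L) := by
        ring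
    _ ≤ (L : ℝ) ^ 2 * ((Y : ℝ) ^ 2 / L) := mul_le_mul_of_nonneg_right h5 h6
    _ = L * (Y : ℝ) ^ 2 := by field_simp

end Pool.Agent.OM
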